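import Pool.Agent.R862.GC.Theta2

/-!
MP_0dc0f9_ag, Q1 (negated form): a planar graph with six vertices, a theta graph with a leaf, one
of whose graph curves has `b_{1,3} ≥ 2` although the graph has only one triangle.
-/

set_option autoImplicit false

namespace Pool.Agent.Results.MP_0dc0f9_ag.ThetaWithLeaf

open Pool.Agent.R862.GC

universe u

/-- The class of graphs of the problem: `G` is connected and planar, every vertex has degree at
most three, and every connected subgraph `H` satisfies `d(H) ≥ 2 g(H) + 1`. -/
structure Admissible {V : Type} (G : SimpleGraph V) : Prop where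
  connected : G.Connected
  planar : IsPlanar G
  degree_le : ∀ v, (G.neighborSet v).ncard ≤ 3
  sub : ∀ H : G.Subgraph, H.Connected → 2 * subGenus H + 1 ≤ (H.verts.ncard : ℤ)

/-- Over every algebraically closed field of characteristic zero the assertion of Q1 fails: there
are a graph `G` with six vertices in the class of the problem, which contains a cycle and
satisfies `γ - 2 ≤ p = d - 2 g - 1`, and a graph curve `L` of `G` in `ℙ^n`, `n = d - g = 4`, such
that `b_{γ-2,γ}` differs from the number of `γ`-cycles of `G`. -/
theorem result (k : Type u) [Field k] [IsAlgClosed k] [CharZero k] :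
    ∃ (G : SimpleGraph (Fin 6)) (L : Fin 6 → Submodule k (Fin (4 + 1) → k)),
      Admissible G ∧ ¬ G.IsAcyclic ∧
      (4 : ℤ) = Nat.card (Fin 6) - genus G ∧
      (G.girth : ℤ) - 2 ≤ Nat.card (Fin 6) - 2 * genus G - 1 ∧
      IsGraphCurve G L ∧
      betti (vanIdeal L) (G.girth - 2) G.girth ≠ (cyclesOfLength G G.girth).ncard := by
  refine ⟨thetaLeaf, lines k, ⟨thetaLeaf_connected, thetaLeaf_planar, ?_, theta_sub⟩,
    theta_not_acyclic, ?_, ?_, isGraphCurve_lines, ?_⟩
  · intro v
    have h := thetaLeaf_degree v
    rw [← SimpleGraph.card_neighborFinset_eq_degree] at h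
    rw [← SimpleGraph.coe_neighborFinset, Set.ncard_coe_finset]
    exact h
  · rw [genus_theta]
    simp
  · rw [genus_theta, theta_girth]
    simp
  · rw [theta_girth]
    have h1 : 2 ≤ betti (vanIdeal (lines k)) (3 - 2) 3 := two_le_betti
    have h2 := theta_triangles
    omega

end Pool.Agent.Results.MP_0dc0f9_ag.ThetaWithLeaf
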